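import Pool.Agent.Run7.h342.MD.Stm

set_option autoImplicit false

namespace Run7.h713.MD

open Run7.h342.MD Finset

noncomputable section

variable {n d : ℕ} {k : Type} [Field k]

/-- binomial coefficient as a polynomial -/
def bin (k : Type) [Field k] (j : ℕ) : Polynomial k :=
  Polynomial.C ((j.factorial : k)⁻¹) * descPochhammer k j

theorem bin_eval [CharZero k] (j a : ℕ) : (bin k j).eval (a : k) = (a.choose j : k) := by
  have hf : (j.factorial : k) ≠ 0 := by exact_mod_cast Nat.factorial_ne_zero j
  rw [bin, Polynomial.eval_mul, Polynomial.eval_C, descPochhammer_eval_eq_descFactorial,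
    Nat.descFactorial_eq_factorial_mul_choose, Nat.cast_mul, inv_mul_cancel_left₀ hf]

theorem bin_natDegree (j : ℕ) : (bin k j).natDegree ≤ j := by
  rw [bin]
  refine (Polynomial.natDegree_C_mul_le _ _).trans ?_
  rw [descPochhammer_natDegree]

theorem bin_coeff (j : ℕ) : (bin k j).coeff j = (j.factorial : k)⁻¹ := by
  rw [bin, Polynomial.coeff_C_mul]
  have h := monic_descPochhammer k j
  rw [Polynomial.Monic, Polynomial.leadingCoeff, descPochhammer_natDegree] at h
  rw [h, mul_one]

/-- the polynomial curve `∑ C(T, j) w j` -/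
def cur (m : ℕ) (w : ℕ → Fin n → k) (l : Fin n) : Polynomial k :=
  ∑ j ∈ range (m + 1), Polynomial.C (w j l) * bin k j

theorem cur_eval [CharZero k] (m : ℕ) (w : ℕ → Fin n → k) (l : Fin n) (a : ℕ) :
    (cur m w l).eval (a : k) = ∑ j ∈ range (m + 1), (a.choose j : k) * w j l := by
  rw [cur, Polynomial.eval_finsetSum]
  apply Finset.sum_congr rfl
  intro j _
  rw [Polynomial.eval_mul, Polynomial.eval_C, bin_eval, mul_comm]

theorem cur_natDegree (m : ℕ) (w : ℕ → Fin n → k) (l : Fin n) : (cur m w l).natDegree ≤ m := by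
  rw [cur]
  apply Polynomial.natDegree_sum_le_of_forall_le
  intro j hj
  rw [Finset.mem_range] at hj
  exact (Polynomial.natDegree_C_mul_le _ _).trans ((bin_natDegree j).trans (by omega))

theorem cur_coeff (m : ℕ) (w : ℕ → Fin n → k) (l : Fin n) :
    (cur m w l).coeff m = (m.factorial : k)⁻¹ * w m l := by
  rw [cur, Polynomial.finsetSum_coeff, Finset.sum_range_succ, Finset.sum_eq_zero, zero_add,
    Polynomial.coeff_C_mul, bin_coeff, mul_comm]
  intro j hj
  rw [Finset.mem_range] at hj
  rw [Polynomial.coeff_C_mul, Polynomial.coeff_eq_zero_of_natDegree_lt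
    ((bin_natDegree j).trans_lt hj), mul_zero]

/-- the composition of the map with the curve -/
def cmp (c : Ix n d → k) (m : ℕ) (w : ℕ → Fin n → k) (i : Fin n) : Polynomial k :=
  ∑ s : Sym (Fin n) d, Polynomial.C (c (i, s)) * ((s : Multiset (Fin n)).map (cur m w)).prod

theorem cmp_eval [CharZero k] (c : Ix n d → k) (m : ℕ) (w : ℕ → Fin n → k) (i : Fin n) (a : ℕ) :
    (cmp c m w i).eval (a : k) =
      ev c (∑ j ∈ range (m + 1), (a.choose j : k) • w j) i := by
  rw [cmp, Polynomial.eval_finsetSum, ev]
  apply Finset.sum_congr rfl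
  intro s _
  rw [Polynomial.eval_mul, Polynomial.eval_C, Polynomial.eval_multiset_prod, Multiset.map_map]
  congr 3
  funext l
  simp only [Function.comp]
  rw [cur_eval]
  simp

theorem mem_map_le (m : ℕ) (w : ℕ → Fin n → k) (s : Sym (Fin n) d) :
    ∀ p ∈ ((s : Multiset (Fin n)).map (cur m w)), p.natDegree ≤ m := by
  intro p hp
  rw [Multiset.mem_map] at hp
  obtain ⟨l, _, rfl⟩ := hp
  exact cur_natDegree m w l

theorem cmp_natDegree (c : Ix n d → k) (m : ℕ) (w : ℕ → Fin n → k) (i : Fin n) :
    (cmp c m w i).natDegree ≤ d * m := by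
  rw [cmp]
  apply Polynomial.natDegree_sum_le_of_forall_le
  intro s _
  refine (Polynomial.natDegree_C_mul_le _ _).trans ?_
  refine (Polynomial.natDegree_multiset_prod_le _).trans ?_
  refine (Multiset.sum_le_card_nsmul _ m ?_).trans ?_
  · intro x hx
    rw [Multiset.mem_map] at hx
    obtain ⟨p, hp, rfl⟩ := hx
    exact mem_map_le m w s p hp
  · have h3 : Multiset.card (s : Multiset (Fin n)) = d := s.2
    rw [Multiset.card_map, Multiset.card_map, h3, smul_eq_mul]

theorem cmp_coeff (c : Ix n d → k) (m : ℕ) (w : ℕ → Fin n → k) (i : Fin n) :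
    (cmp c m w i).coeff (d * m) = ev c ((m.factorial : k)⁻¹ • w m) i := by
  rw [cmp, Polynomial.finsetSum_coeff, ev]
  apply Finset.sum_congr rfl
  intro s _
  rw [Polynomial.coeff_C_mul]
  have h3 : Multiset.card ((s : Multiset (Fin n)).map (cur m w)) = d := by
    rw [Multiset.card_map]; exact s.2
  have h4 := Polynomial.coeff_multiset_prod_of_natDegree_le ((s : Multiset (Fin n)).map (cur m w))
    m (mem_map_le m w s)
  rw [h3] at h4
  rw [h4, Multiset.map_map]
  congr 3
  funext l
  simp only [Function.comp]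
  rw [cur_coeff]
  rfl

/-- differences along the orbit of `A` -/
theorem diff_orbit (A : Module.End k (Fin n → k)) (z : Fin n → k) (i : Fin n) (P : Polynomial k)
    (hP : ∀ a : ℕ, P.eval (a : k) = ((A ^ a) z) i) (j : ℕ) : ∀ a : ℕ,
    (fwdDiff (1 : k))^[j] P.eval (a : k) = (((A - 1) ^ j) ((A ^ a) z)) i := by
  induction j with
  | zero => intro a; simpa using hP a
  | succ j ih =>
    intro a
    rw [Function.iterate_succ_apply', fwdDiff]
    have h1 := ih (a + 1)
    have h2 := ih a
    push_cast at h1
    rw [h1, h2, pow_succ (A - 1) j, pow_succ' A a]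
    simp only [Module.End.mul_apply, LinearMap.sub_apply, Module.End.one_apply, map_sub,
      Pi.sub_apply]

/-- powers of a unipotent map -/
theorem unip_pow (A ν : Module.End k (Fin n → k)) (hA : A = ν + 1) (x : Fin n → k) (m : ℕ)
    (hx : (ν ^ (m + 1)) x = 0) (a : ℕ) :
    (A ^ a) x = ∑ j ∈ range (m + 1), (a.choose j : k) • (ν ^ j) x := by
  have hz : ∀ j, m + 1 ≤ j → (ν ^ j) x = 0 := by
    intro j hj
    obtain ⟨t, rfl⟩ := Nat.exists_eq_add_of_le hj
    rw [add_comm, pow_add, Module.End.mul_apply, hx, map_zero]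
  have h1 : (A ^ a) x = ∑ j ∈ range (a + 1), (a.choose j : k) • (ν ^ j) x := by
    rw [hA, (Commute.one_right ν).add_pow a, LinearMap.sum_apply]
    apply Finset.sum_congr rfl
    intro j _
    rw [one_pow, mul_one]
    have : ((ν ^ j) * ((a.choose j : ℕ) : Module.End k (Fin n → k))) x =
        (a.choose j : k) • (ν ^ j) x := by
      rw [Module.End.mul_apply, Module.End.natCast_apply, map_nsmul, Nat.cast_smul_eq_nsmul]
    exact this
  rw [h1]
  rw [Finset.sum_subset (s₁ := range (a + 1)) (s₂ := range (a + m + 1))]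
  · symm
    apply Finset.sum_subset
    · intro j hj
      rw [Finset.mem_range] at hj ⊢
      omega
    · intro j _ hj
      rw [Finset.mem_range] at hj
      rw [hz j (by omega), smul_zero]
  · intro j hj
    rw [Finset.mem_range] at hj ⊢
    omega
  · intro j _ hj
    rw [Finset.mem_range] at hj
    rw [Nat.choose_eq_zero_of_lt (by omega), Nat.cast_zero, zero_smul]

/-- eigenvectors span implies diagonalizable -/
theorem diag_of_span (g : GL (Fin n) k)
    (h : ⊤ ≤ Submodule.span k {v : Fin n → k | ∃ μ : k, g.1.mulVec v = μ • v}) : IsDiagble g := by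
  classical
  have hsub := Module.Basis.ofSpan_subset h
  set b := Module.Basis.ofSpan h with hb
  haveI : Finite _ := Module.Finite.finite_basis b
  haveI := Fintype.ofFinite ((linearIndepOn_empty k (id : (Fin n → k) → (Fin n → k))).extend
    (Set.empty_subset {v : Fin n → k | ∃ μ : k, g.1.mulVec v = μ • v}))
  have hcard := Module.finrank_eq_card_basis b
  rw [Module.finrank_fintype_fun_eq_card, Fintype.card_fin] at hcard
  set b' := b.reindex (Fintype.equivFinOfCardEq hcard.symm) with hb'
  have hev : ∀ j : Fin n, ∃ μ : k, g.1.mulVec (b' j) = μ • (b' j) := by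
    intro j
    have : b' j ∈ Set.range b := by
      rw [hb', Module.Basis.reindex_apply]
      exact ⟨_, rfl⟩
    exact hsub this
  choose a ha using hev
  set M : Matrix (Fin n) (Fin n) k := Matrix.of (fun i j => b' j i) with hM
  have hunit : IsUnit M := by
    rw [← Matrix.linearIndependent_cols_iff_isUnit]
    exact b'.linearIndependent
  obtain ⟨u, hu⟩ := hunit
  refine ⟨u, a, ?_⟩
  have h1 : (g : Matrix (Fin n) (Fin n) k) * (u : Matrix (Fin n) (Fin n) k) =
      (u : Matrix (Fin n) (Fin n) k) * Matrix.diagonal a := by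
    rw [hu]
    ext i j
    rw [Matrix.mul_diagonal]
    have h2 := congrFun (ha j) i
    rw [Pi.smul_apply, smul_eq_mul] at h2
    rw [hM, Matrix.of_apply, mul_comm, ← h2]
    rfl
  have h3 : (u : Matrix (Fin n) (Fin n) k) *
      ((u⁻¹ : GL (Fin n) k) : Matrix (Fin n) (Fin n) k) = 1 := u.mul_inv
  rw [← h1, mul_assoc, h3, mul_one]

theorem t_DIAG [IsAlgClosed k] [CharZero k] (hn : 3 ≤ n) (hd : 2 ≤ d) : S_DIAG n d k := by
  classical
  intro c hc g hg
  set G : Module.End k (Fin n → k) := Matrix.toLin' g.1 with hG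
  have hGa : ∀ x, G x = g.1.mulVec x := fun x => Matrix.toLin'_apply _ _
  have hF : ∀ x, ev c (G x) = G (ev c x) := by
    intro x
    rw [hGa, hGa]
    have := ev_act_mulVec g c x
    rwa [hg] at this
  have hinj : ∀ x, G x = 0 → x = 0 := by
    intro x hx
    rw [hGa] at hx
    have := congrArg (fun y => (g⁻¹ : GL (Fin n) k).1.mulVec y) hx
    simp only [inv_mulVec_mulVec, Matrix.mulVec_zero] at this
    exact this
  -- bounded nilpotency
  have hex : ∃ N : ℕ, ∀ (μ : k) (x : Fin n → k) (K : ℕ), ((G - μ • 1) ^ K) x = 0 →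
      ((G - μ • 1) ^ N) x = 0 := by
    refine ⟨Module.finrank k (Fin n → k), ?_⟩
    intro μ x K hK
    have h1 : x ∈ G.genEigenspace μ K := by
      rw [Module.End.mem_genEigenspace_nat]
      exact hK
    have h2 := Module.End.genEigenspace_le_genEigenspace_finrank G μ K h1
    rw [Module.End.mem_genEigenspace_nat] at h2
    exact h2
  by_cases hone : ∀ (μ : k) (x : Fin n → k) (K : ℕ), ((G - μ • 1) ^ K) x = 0 →
      (G - μ • 1) x = 0
  · -- diagonalizable
    apply diag_of_span
    rw [← Module.End.iSup_maxGenEigenspace_eq_top G]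
    apply iSup_le
    intro μ x hx
    rw [Module.End.mem_maxGenEigenspace] at hx
    obtain ⟨K, hK⟩ := hx
    apply Submodule.subset_span
    refine ⟨μ, ?_⟩
    have h1 := hone μ x K hK
    rw [LinearMap.sub_apply, LinearMap.smul_apply, Module.End.one_apply, sub_eq_zero] at h1
    rw [← hGa]
    exact h1
  · exfalso
    -- the largest Jordan block
    set N := Nat.find hex with hN
    have hNs := Nat.find_spec hex
    have hN2 : 2 ≤ N := by
      by_contra hlt
      apply hone
      intro μ x K hK
      have h1 := hNs μ x K hK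
      rw [← hN] at h1
      have h2 : N = 0 ∨ N = 1 := by omega
      rcases h2 with h2 | h2
      · rw [h2, pow_zero, Module.End.one_apply] at h1
        rw [h1, map_zero]
      · rwa [h2, pow_one] at h1
    obtain ⟨m, hm⟩ : ∃ m, N = m + 1 := ⟨N - 1, by omega⟩
    have hm1 : 1 ≤ m := by omega
    have hmin := Nat.find_min hex (m := m) (by rw [← hN]; omega)
    push Not at hmin
    obtain ⟨lam, x, K, hK, hne⟩ := hmin
    have hx := hNs lam x K hK
    rw [← hN, hm] at hx
    have hl0 : lam ≠ 0 := by
      intro h0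
      rw [h0, zero_smul, sub_zero, pow_succ', Module.End.mul_apply] at hx
      rw [h0, zero_smul, sub_zero] at hne
      exact hne (hinj _ hx)
    set ν : Module.End k (Fin n → k) := lam⁻¹ • (G - lam • 1) with hν
    set A1 : Module.End k (Fin n → k) := lam⁻¹ • G with hA1
    have hA1ν : A1 = ν + 1 := by
      rw [hA1, hν, smul_sub, smul_smul, inv_mul_cancel₀ hl0, one_smul]
      abel
    have hνp : ∀ j y, (ν ^ j) y = (lam⁻¹) ^ j • ((G - lam • 1) ^ j) y := by
      intro j y
      rw [hν, smul_pow, LinearMap.smul_apply]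
    have hνx : (ν ^ (m + 1)) x = 0 := by
      rw [hνp, hx, smul_zero]
    have hνm : (ν ^ m) x ≠ 0 := by
      rw [hνp]
      exact smul_ne_zero (pow_ne_zero _ (inv_ne_zero hl0)) hne
    set mu : k := lam ^ d with hmu
    have hmu0 : mu ≠ 0 := pow_ne_zero _ hl0
    set A : Module.End k (Fin n → k) := mu⁻¹ • G with hA
    have hFA1 : ∀ y, ev c (A1 y) = A (ev c y) := by
      intro y
      rw [hA1, hA, LinearMap.smul_apply, LinearMap.smul_apply, ev_scale, hF, hmu, inv_pow]
    have hFA : ∀ (a : ℕ), ev c ((A1 ^ a) x) = (A ^ a) (ev c x) := by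
      intro a
      induction a with
      | zero => simp
      | succ a ih =>
        rw [pow_succ', pow_succ', Module.End.mul_apply, Module.End.mul_apply, hFA1, ih]
    set z := ev c x with hz
    set P : Fin n → Polynomial k := fun i => cmp c m (fun j => (ν ^ j) x) i with hP
    have hPe : ∀ i (a : ℕ), (P i).eval (a : k) = ((A ^ a) z) i := by
      intro i a
      rw [hP]
      simp only
      rw [cmp_eval, ← unip_pow A1 ν hA1ν x m hνx a, hFA]
    have hPd : ∀ i, (P i).natDegree ≤ d * m := fun i => cmp_natDegree c m _ i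
    -- z is in the generalized eigenspace
    have hAmu : A - 1 = mu⁻¹ • (G - mu • 1) := by
      rw [hA, smul_sub, smul_smul, inv_mul_cancel₀ hmu0, one_smul]
    have hApow : ∀ j y, ((A - 1) ^ j) y = (mu⁻¹) ^ j • ((G - mu • 1) ^ j) y := by
      intro j y
      rw [hAmu, smul_pow, LinearMap.smul_apply]
    have h1 : ((A - 1) ^ (d * m + 1)) z = 0 := by
      funext i
      have h2 := diff_orbit A z i (P i) (hPe i) (d * m + 1) 0
      rw [pow_zero, Module.End.one_apply] at h2
      rw [← h2]
      have h3 := Polynomial.fwdDiff_iter_eq_zero_of_degree_lt (P := P i) (n := d * m + 1)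
        (by have := hPd i; omega)
      rw [h3]
      rfl
    have h4 : ((G - mu • 1) ^ (d * m + 1)) z = 0 := by
      rw [hApow] at h1
      exact (smul_eq_zero.mp h1).resolve_left (pow_ne_zero _ (inv_ne_zero hmu0))
    have h5 := hNs mu z _ h4
    rw [← hN, hm] at h5
    have hDm : m + 1 ≤ d * m := by nlinarith
    have h6 : ((A - 1) ^ (d * m)) z = 0 := by
      obtain ⟨t, ht⟩ := Nat.exists_eq_add_of_le hDm
      rw [ht, add_comm, pow_add, Module.End.mul_apply, hApow (m + 1) z, h5, smul_zero, map_zero]
    -- contradiction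
    have hw : ev c (((m.factorial : k)⁻¹) • (ν ^ m) x) ≠ 0 := by
      intro h
      have h7 := hc _ h
      have hf : (m.factorial : k) ≠ 0 := by exact_mod_cast Nat.factorial_ne_zero m
      exact (smul_ne_zero (inv_ne_zero hf) hνm) h7
    obtain ⟨i, hi⟩ := Function.ne_iff.mp hw
    have hco : (P i).coeff (d * m) ≠ 0 := by
      rw [hP]
      simp only
      rw [cmp_coeff]
      exact hi
    have hdeg : (P i).natDegree = d * m :=
      le_antisymm (hPd i) (Polynomial.le_natDegree_of_ne_zero hco)
    have h8 := diff_orbit A z i (P i) (hPe i) (d * m) 0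
    rw [pow_zero, Module.End.one_apply, h6] at h8
    have h9 := Polynomial.fwdDiff_iter_degree_eq_factorial (P i)
    rw [hdeg] at h9
    rw [h9] at h8
    have hf : ((d * m).factorial : k) ≠ 0 := by exact_mod_cast Nat.factorial_ne_zero _
    have hlc : (P i).leadingCoeff ≠ 0 := by
      rw [Polynomial.leadingCoeff, hdeg]
      exact hco
    simp only [Pi.smul_apply, Pi.natCast_apply, smul_eq_mul, Pi.zero_apply, mul_eq_zero] at h8
    rcases h8 with h8 | h8
    · exact hlc h8
    · exact hf h8

end

end Run7.h713.MD
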