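import Pool.Agent.Run7.h342.MD.Stm

set_option autoImplicit false

/-!
Piece KD of helper342's project MD (`MP_807a54_ag`): the dimension of the local ring.
-/

namespace Run7.h713.MD

open MvPolynomial Run7.h342.MD

noncomputable section

/-- generators of the maximal ideal of a localization -/
theorem gen_loc (A : Type) [CommRing A] (p : Ideal A) [p.IsPrime] (r : ℕ)
    (hfg : (IsLocalRing.maximalIdeal (Localization.AtPrime p)).FG)
    (hr : (IsLocalRing.maximalIdeal (Localization.AtPrime p)).spanFinrank ≤ r) :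
    ∃ t : Fin r → A, (∀ i, t i ∈ p) ∧
      ∀ φ ∈ p, ∃ s, s ∉ p ∧ ∃ a : Fin r → A, s * φ = ∑ i, a i * t i := by
  classical
  have hfin := Submodule.FG.finite_generators hfg
  have hcard := Submodule.FG.generators_ncard hfg
  have : Fintype (Submodule.generators (IsLocalRing.maximalIdeal (Localization.AtPrime p))) :=
    hfin.fintype
  have hc : Fintype.card (Submodule.generators (IsLocalRing.maximalIdeal (Localization.AtPrime p))) ≤
      Fintype.card (Fin r) := by
    rw [Fintype.card_fin, ← Nat.card_eq_fintype_card, Nat.card_coe_set_eq, hcard]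
    exact hr
  obtain ⟨f⟩ := Function.Embedding.nonempty_of_card_le hc
  obtain ⟨y, hy⟩ : ∃ y : Fin r → Localization.AtPrime p, y = Function.extend f Subtype.val 0 :=
    ⟨_, rfl⟩
  have hy1 : ∀ i, y i ∈ IsLocalRing.maximalIdeal (Localization.AtPrime p) := by
    intro i
    by_cases h : ∃ s, f s = i
    · obtain ⟨s, rfl⟩ := h
      rw [hy, f.injective.extend_apply]
      exact Submodule.FG.generators_mem _ s.2
    · rw [hy, Function.extend_apply' _ _ _ h]
      exact Ideal.zero_mem _
  have hy2 : IsLocalRing.maximalIdeal (Localization.AtPrime p) ≤ Ideal.span (Set.range y) := by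
    have h1 := Submodule.span_generators (IsLocalRing.maximalIdeal (Localization.AtPrime p))
    rw [← h1]
    apply Submodule.span_mono
    intro s hs
    refine ⟨f ⟨s, hs⟩, ?_⟩
    rw [hy, f.injective.extend_apply]
  have hex : ∀ i, ∃ (t : A) (s : p.primeCompl), IsLocalization.mk' (Localization.AtPrime p) t s = y i :=
    fun i => IsLocalization.exists_mk'_eq p.primeCompl (y i)
  choose t s hts using hex
  have ht : ∀ i, t i ∈ p := by
    intro i
    have h1 := hy1 i
    rw [← hts i, IsLocalization.AtPrime.mk'_mem_maximal_iff _ p] at h1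
    exact h1
  have hle : IsLocalRing.maximalIdeal (Localization.AtPrime p) ≤
      Ideal.map (algebraMap A (Localization.AtPrime p)) (Ideal.span (Set.range t)) := by
    refine hy2.trans ?_
    rw [Ideal.span_le]
    rintro _ ⟨i, rfl⟩
    rw [SetLike.mem_coe, ← hts i, IsLocalization.mk'_eq_mul_mk'_one]
    exact Ideal.mul_mem_right _ _ (Ideal.mem_map_of_mem _ (Ideal.subset_span ⟨i, rfl⟩))
  refine ⟨t, ht, fun φ hφ => ?_⟩
  have h1 : algebraMap A (Localization.AtPrime p) φ ∈
      IsLocalRing.maximalIdeal (Localization.AtPrime p) :=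
    (IsLocalization.AtPrime.to_map_mem_maximal_iff (Localization.AtPrime p) p φ).2 hφ
  obtain ⟨⟨b, u⟩, hb⟩ := (IsLocalization.mem_map_algebraMap_iff p.primeCompl
    (Localization.AtPrime p)).1 (hle h1)
  rw [← map_mul] at hb
  obtain ⟨c, hc⟩ := (IsLocalization.eq_iff_exists p.primeCompl (Localization.AtPrime p)).1 hb
  refine ⟨c * u, (p.primeCompl.mul_mem c.2 u.2), ?_⟩
  have h2 : (c : A) * u * φ ∈ Ideal.span (Set.range t) := by
    have h3 : (c : A) * u * φ = c * b.1 := by rw [← hc]; ring
    rw [h3]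
    exact Ideal.mul_mem_left _ _ b.2
  obtain ⟨a, ha⟩ := (Submodule.mem_span_range_iff_exists_fun A).1 h2
  exact ⟨a, ha.symm⟩

theorem reg_gen (A : Type) [CommRing A] (p : Ideal A) [p.IsPrime]
    (hreg : IsRegularLocalRing (Localization.AtPrime p)) :
    ∃ a : ℕ, (a : WithBot ℕ∞) ≤ ringKrullDim A ∧ ∀ r, a ≤ r →
      ∃ t : Fin r → A, (∀ i, t i ∈ p) ∧
        ∀ φ ∈ p, ∃ s, s ∉ p ∧ ∃ a : Fin r → A, s * φ = ∑ i, a i * t i := by
  refine ⟨(IsLocalRing.maximalIdeal (Localization.AtPrime p)).spanFinrank, ?_, fun r hr =>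
    gen_loc A p r (IsNoetherian.noetherian _) hr⟩
  rw [hreg.spanFinrank_maximalIdeal,
      IsLocalization.AtPrime.ringKrullDim_eq_height p (Localization.AtPrime p)]
  exact Ideal.height_le_ringKrullDim_of_isPrime

variable {n d : ℕ} {k : Type} [Field k]

theorem lie_add' (Y Y' : Matrix (Fin n) (Fin n) k) (c : Ix n d → k) :
    lie (Y + Y') c = lie Y c + lie Y' c := by
  funext q
  simp only [lie, Pi.add_apply]
  rw [← coeff_add]
  congr 1
  simp only [Matrix.add_apply, map_add, add_mul, Finset.sum_add_distrib]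
  ring

theorem lie_smul' (a : k) (Y : Matrix (Fin n) (Fin n) k) (c : Ix n d → k) :
    lie (a • Y) c = a • lie Y c := by
  funext q
  simp only [lie, Pi.smul_apply, smul_eq_mul]
  rw [← coeff_C_mul]
  congr 1
  simp only [Matrix.smul_apply, smul_eq_mul, map_mul, mul_sub, Finset.mul_sum, Finset.sum_mul]
  simp only [mul_assoc]

/-- `Y ↦ lie Y c` -/
def lieM (c : Ix n d → k) : Matrix (Fin n) (Fin n) k →ₗ[k] (Ix n d → k) where
  toFun Y := lie Y c
  map_add' Y Y' := lie_add' Y Y' c
  map_smul' a Y := lie_smul' a Y c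

theorem card_le (c : Ix n d → k) (a : ℕ) (L : Fin a → ((Ix n d → k) →ₗ[k] k))
    (hind : LinearIndependent k (fun i => (fun q : Ix n d => L i (Pi.single q 1))))
    (hker : ∀ i Y, L i (lie Y c) = 0) (hinj : ∀ Y, lie Y c = 0 → Y = 0) :
    a + n * n ≤ Fintype.card (Ix n d) := by
  classical
  have h0 : LinearIndependent k L := by
    let T : ((Ix n d → k) →ₗ[k] k) →ₗ[k] (Ix n d → k) :=
      { toFun := fun l q => l (Pi.single q 1)
        map_add' := fun _ _ => rfl
        map_smul' := fun _ _ => rfl }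
    exact LinearIndependent.of_comp T hind
  have hW : Module.finrank k (LinearMap.range (lieM c)) = n * n := by
    have h1 : Function.Injective (lieM c) := by
      rw [← LinearMap.ker_eq_bot, LinearMap.ker_eq_bot']
      exact fun Y hY => hinj Y hY
    rw [LinearMap.finrank_range_of_inj h1, Module.finrank_matrix]
    simp
  have h1 := Subspace.finrank_add_finrank_dualAnnihilator_eq (LinearMap.range (lieM c))
  have hmem : ∀ i, L i ∈ (LinearMap.range (lieM c)).dualAnnihilator := by
    intro i
    rw [Submodule.mem_dualAnnihilator]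
    rintro _ ⟨Y, rfl⟩
    exact hker i Y
  have h2 : LinearIndependent k (fun i => (⟨L i, hmem i⟩ :
      (LinearMap.range (lieM c)).dualAnnihilator)) :=
    LinearIndependent.of_comp (Submodule.subtype _) h0
  have h3 := h2.fintype_card_le_finrank
  rw [Fintype.card_fin] at h3
  rw [hW, Module.finrank_fintype_fun_eq_card] at h1
  omega

theorem t_KD (n d : ℕ) (k : Type) [Field k] [IsAlgClosed k] [CharZero k] (_hn : 3 ≤ n) (_hd : 2 ≤ d) :
    S_RES n d k → S_REPU n d k → S_DU n d k → S_ORB n d k → S_INF n d k → S_JAC n d k → S_TRD →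
    S_KD n d k := by
  classical
  intro _ _ hDU hORB hINF hJAC hTRD F hreg
  obtain ⟨a, hdim, hg⟩ := reg_gen (Inv n d k) (pt F) hreg
  obtain ⟨x, hx⟩ := hTRD k (Inv n d k) a hdim
  have hx' : AlgebraicIndependent k (fun i => (x i : U n d k → k)) :=
    hx.map' (f := (Inv n d k).val) Subtype.val_injective
  obtain ⟨c, hc⟩ := hJAC a (fun i => (x i : U n d k → k)) (fun i => (x i).2.1) hx'
  have hle : a + n * n ≤ Fintype.card (Ix n d) := by
    let L : Fin a → ((Ix n d → k) →ₗ[k] k) := fun i =>
      { toFun := fun v => dU (x i : U n d k → k) c v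
        map_add' := fun v v' => hDU.add_v _ (x i).2.1 c v v'
        map_smul' := fun b v => hDU.smul_v _ (x i).2.1 c b v }
    refine card_le c.1 a L hc (fun i Y => ?_) (fun Y hY => hINF c.1 c.2 Y hY)
    have h1 := hORB.der (x i : U n d k → k) (x i).2.1 c Y
    have h2 : orb c (x i : U n d k → k) = fun _ => (x i : U n d k → k) c := by
      funext g
      exact inv_gact (x i).2 g c
    have h3 : RegU (fun _ : U n d k => (x i : U n d k → k) c) :=
      (OU n d k).algebraMap_mem ((x i : U n d k → k) c)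
    have h4 := hORB.der (fun _ : U n d k => (x i : U n d k → k) c) h3 c Y
    have h5 : orb c (fun _ : U n d k => (x i : U n d k → k) c) =
        fun _ => (x i : U n d k → k) c := rfl
    rw [h5, hDU.const] at h4
    rw [h2, h4] at h1
    exact h1.symm
  obtain ⟨t, ht, hgen⟩ := hg (Fintype.card (Ix n d) - n * n) (by omega)
  refine ⟨Fintype.card (Ix n d) - n * n, by omega, fun i => (t i : U n d k → k), ?_⟩
  refine ⟨fun i => (t i).2, fun i => ht i, fun φ hφ h0 => ?_⟩
  obtain ⟨s, hs, b, hb⟩ := hgen ⟨φ, hφ⟩ h0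
  refine ⟨(s : U n d k → k), s.2, hs, fun i => (b i : U n d k → k), fun i => (b i).2, ?_⟩
  have h1 := congrArg (fun z : Inv n d k => (z : U n d k → k)) hb
  simpa using h1

end

end Run7.h713.MD
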