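import Pool.Agent.Run7.h342.MD.Stm

set_option autoImplicit false

namespace Run7.h713.MD

open Run7.h342.MD Finset

section

variable {n : ℕ} {k : Type} [Field k]

theorem pair_eq {α : Type} {i j p q : α} (h : (i ::ₘ j ::ₘ 0 : Multiset α) = p ::ₘ q ::ₘ 0) :
    (i = p ∧ j = q) ∨ (i = q ∧ j = p) := by
  classical
  rcases Multiset.cons_eq_cons.mp h with ⟨h1, h2⟩ | ⟨h1, cs, h2, h3⟩
  · left
    refine ⟨h1, ?_⟩
    rcases Multiset.cons_eq_cons.mp h2 with ⟨h4, _⟩ | ⟨_, cs, h5, _⟩
    · exact h4
    · exact absurd h5.symm (Multiset.cons_ne_zero)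
  · right
    rcases Multiset.cons_eq_cons.mp h2 with ⟨h4, h5⟩ | ⟨_, cs', h5, _⟩
    · rcases Multiset.cons_eq_cons.mp h3 with ⟨h6, _⟩ | ⟨_, cs'', h7, _⟩
      · exact ⟨h6.symm, h4⟩
      · exact absurd h7.symm (Multiset.cons_ne_zero)
    · exact absurd h5.symm (Multiset.cons_ne_zero)

open Classical in
theorem row_count (hn : 2 ≤ n) (a : Fin n → k) (i0 j0 : Fin n) (hij : a i0 ≠ a j0) (c : k)
    (hc : c ≠ 0) :
    2 * n ≤ (univ.filter (fun p : Fin n × Fin n => a p.1 ≠ c * a p.2)).card + 2 := by
  have hne : i0 ≠ j0 := fun h => hij (by rw [h])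
  have hx : ∀ l : Fin n, ∃ x : Fin n, (x = i0 ∨ x = j0) ∧ a l ≠ c * a x := by
    intro l
    by_cases h : a l = c * a i0
    · refine ⟨j0, Or.inr rfl, ?_⟩
      intro h2
      rw [h] at h2
      exact hij (mul_left_cancel₀ hc h2)
    · exact ⟨i0, Or.inl rfl, h⟩
  have hy : ∀ j : Fin n, ∃ y : Fin n, a y ≠ c * a j := by
    intro j
    by_cases h : a i0 = c * a j
    · refine ⟨j0, ?_⟩
      intro h2
      exact hij (h.trans h2.symm)
    · exact ⟨i0, h⟩
  choose x hx1 hx2 using hx
  choose y hy2 using hy
  set A := univ.image (fun l : Fin n => (l, x l)) with hA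
  set B := ((univ : Finset (Fin n)) \ {i0, j0}).image (fun j : Fin n => (y j, j)) with hB
  have hAc : A.card = n := by
    rw [hA, Finset.card_image_of_injective]
    · simp
    · intro p q h
      exact (Prod.mk.inj h).1
  have hBc : B.card + 2 = n := by
    rw [hB, Finset.card_image_of_injective]
    · rw [Finset.card_sdiff_of_subset (subset_univ _)]
      rw [Finset.card_pair hne]
      simp only [card_univ, Fintype.card_fin]
      omega
    · intro p q h
      exact (Prod.mk.inj h).2
  have hdis : Disjoint A B := by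
    rw [Finset.disjoint_left]
    intro p hp hq
    rw [hA, Finset.mem_image] at hp
    rw [hB, Finset.mem_image] at hq
    obtain ⟨l, _, rfl⟩ := hp
    obtain ⟨j, hj, hj2⟩ := hq
    have h2 := (Prod.mk.inj hj2).2
    rw [Finset.mem_sdiff] at hj
    apply hj.2
    rw [h2]
    rcases hx1 l with h | h <;> simp [h]
  have hsub : A ∪ B ⊆ univ.filter (fun p : Fin n × Fin n => a p.1 ≠ c * a p.2) := by
    intro p hp
    rw [Finset.mem_filter]
    refine ⟨mem_univ _, ?_⟩
    rw [Finset.mem_union] at hp
    rcases hp with hp | hp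
    · rw [hA, Finset.mem_image] at hp
      obtain ⟨l, _, rfl⟩ := hp
      exact hx2 l
    · rw [hB, Finset.mem_image] at hp
      obtain ⟨j, _, rfl⟩ := hp
      exact hy2 j
  have h3 := Finset.card_le_card hsub
  rw [Finset.card_union_of_disjoint hdis] at h3
  omega

theorem choose_ge (n : ℕ) (hn : 3 ≤ n) : n * n + 2 ≤ n + (n + 2).choose 3 := by
  induction n, hn using Nat.le_induction with
  | base => decide
  | succ m hm ih =>
    have h1 : (m + 1 + 2).choose 3 = (m + 2).choose 2 + (m + 2).choose 3 := by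
      rw [show m + 1 + 2 = (m + 2) + 1 by ring, Nat.choose_succ_succ]
    have h2 : 2 * m ≤ (m + 2).choose 2 := by
      rw [Nat.choose_two_right]
      rw [Nat.le_div_iff_mul_le (by norm_num)]
      have : m + 2 - 1 = m + 1 := by omega
      rw [this]
      nlinarith
    rw [h1]
    nlinarith

open Classical in
theorem t_COMB {n d : ℕ} {k : Type} [Field k] (hn : 3 ≤ n) (hd : 2 ≤ d) : S_COMB n d k := by
  intro a ha hex
  obtain ⟨i0, j0, hij⟩ := hex
  set Q := univ.filter (fun q : Ix n d => a q.1 ≠ ((q.2 : Multiset (Fin n)).map a).prod) with hQ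
  have hQc : {q : Ix n d | a q.1 ≠ ((q.2 : Multiset (Fin n)).map a).prod}.ncard = Q.card := by
    rw [← Set.ncard_coe_finset]
    congr 1
    ext q
    simp [hQ]
  rw [hQc]
  have hex2 : ∀ b : k, ∃ l : Fin n, a l ≠ b := by
    intro b
    by_cases h : a i0 = b
    · exact ⟨j0, fun h2 => hij (h.trans h2.symm)⟩
    · exact ⟨i0, h⟩
  rcases Nat.lt_or_ge 2 d with hd3 | hd2
  · -- d ≥ 3
    choose l hl using fun s : Sym (Fin n) d => hex2 (((s : Multiset (Fin n)).map a).prod)
    have h1 : (univ.image (fun s : Sym (Fin n) d => ((l s, s) : Ix n d))) ⊆ Q := by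
      intro q hq
      rw [Finset.mem_image] at hq
      obtain ⟨s, _, rfl⟩ := hq
      rw [hQ, Finset.mem_filter]
      exact ⟨mem_univ _, hl s⟩
    have h2 := Finset.card_le_card h1
    rw [Finset.card_image_of_injective _ (fun s t h => (Prod.mk.inj h).2), Finset.card_univ,
      Sym.card_sym_eq_choose, Fintype.card_fin] at h2
    have h3 : (n + 2).choose 3 ≤ (n + d - 1).choose d := by
      have e1 : (n + 2).choose 3 = (n + 2).choose (n - 1) := by
        rw [← Nat.choose_symm (show 3 ≤ n + 2 by omega)]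
        congr 1
      have e2 : (n + d - 1).choose d = (n + d - 1).choose (n - 1) := by
        rw [← Nat.choose_symm (show d ≤ n + d - 1 by omega)]
        congr 1
        omega
      rw [e1, e2]
      exact Nat.choose_le_choose _ (by omega)
    have h4 := choose_ge n hn
    omega
  · -- d = 2
    have hd' : d = 2 := le_antisymm hd2 hd
    subst hd'
    set pr : Fin n → Fin n → Sym (Fin n) 2 := fun i j => i ::ₛ j ::ₛ Sym.nil with hpr
    have hprm : ∀ i j, ((pr i j : Sym (Fin n) 2) : Multiset (Fin n)) = i ::ₘ j ::ₘ 0 := by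
      intro i j; rfl
    have hprv : ∀ i j, (((pr i j : Sym (Fin n) 2) : Multiset (Fin n)).map a).prod = a i * a j := by
      intro i j
      rw [hprm]
      simp
    have hpri : ∀ i j p q, pr i j = pr p q → (i = p ∧ j = q) ∨ (i = q ∧ j = p) := by
      intro i j p q h
      apply pair_eq
      rw [← hprm, ← hprm, h]
    set T1 := (univ : Finset (Fin n × (Fin n × Fin n))).filter
      (fun t => a t.2.1 ≠ a t.1 * a t.2.2) with hT1
    set T2 := (univ : Finset (Fin n × Fin n)).filter (fun t => a t.1 ≠ a t.2 * a t.2) with hT2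
    -- lower bounds
    have hT1c : n * (2 * n) ≤ T1.card + n * 2 := by
      have h1 : T1.card = ∑ i : Fin n,
          (univ.filter (fun p : Fin n × Fin n => a p.1 ≠ a i * a p.2)).card := by
        rw [hT1, Finset.card_filter, ← Finset.univ_product_univ, Finset.sum_product]
        apply Finset.sum_congr rfl
        intro i _
        rw [Finset.card_filter]
      have h2 : ∑ i : Fin n, 2 * n ≤ ∑ i : Fin n,
          ((univ.filter (fun p : Fin n × Fin n => a p.1 ≠ a i * a p.2)).card + 2) := by
        apply Finset.sum_le_sum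
        intro i _
        exact row_count (by omega) a i0 j0 hij (a i) (ha i)
      rw [Finset.sum_add_distrib, ← h1] at h2
      simpa using h2
    have hT2c : n ≤ T2.card := by
      choose l hl using fun i : Fin n => hex2 (a i * a i)
      have h1 : (univ.image (fun i : Fin n => (l i, i))) ⊆ T2 := by
        intro q hq
        rw [Finset.mem_image] at hq
        obtain ⟨s, _, rfl⟩ := hq
        rw [hT2, Finset.mem_filter]
        exact ⟨mem_univ _, hl s⟩
      have h2 := Finset.card_le_card h1
      rw [Finset.card_image_of_injective _ (fun s t h => (Prod.mk.inj h).2), Finset.card_univ,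
        Fintype.card_fin] at h2
      exact h2
    -- injections
    set I1 := T1.image (fun t => (((t.2.1, pr t.1 t.2.2) : Ix n 2), decide (t.1 ≤ t.2.2))) with hI1
    set I2 := T2.image (fun t => (((t.1, pr t.2 t.2) : Ix n 2), false)) with hI2
    have hI1c : I1.card = T1.card := by
      rw [hI1]
      apply Finset.card_image_of_injOn
      rintro ⟨i, l, j⟩ _ ⟨i', l', j'⟩ _ h
      simp only [Prod.mk.injEq] at h
      obtain ⟨⟨h1, h2⟩, h3⟩ := h
      rcases hpri _ _ _ _ h2 with ⟨h4, h5⟩ | ⟨h4, h5⟩
      · rw [h1, h4, h5]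
      · subst h4 h5
        have h6 : (i ≤ j) ↔ (j ≤ i) := by
          simpa using h3
        have h7 : i = j := by
          rcases le_total i j with h | h
          · exact le_antisymm h (h6.mp h)
          · exact le_antisymm (h6.mpr h) h
        rw [h1, h7]
    have hI2c : I2.card = T2.card := by
      rw [hI2]
      apply Finset.card_image_of_injOn
      rintro ⟨l, i⟩ _ ⟨l', i'⟩ _ h
      simp only [Prod.mk.injEq] at h
      obtain ⟨⟨h1, h2⟩, _⟩ := h
      rcases hpri _ _ _ _ h2 with ⟨h4, h5⟩ | ⟨h4, h5⟩ <;> rw [h1, h4]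
    have hdis : Disjoint I1 I2 := by
      rw [Finset.disjoint_left]
      intro p hp hq
      rw [hI1, Finset.mem_image] at hp
      rw [hI2, Finset.mem_image] at hq
      obtain ⟨⟨i, l, j⟩, _, rfl⟩ := hp
      obtain ⟨⟨l', i'⟩, _, h⟩ := hq
      simp only [Prod.mk.injEq] at h
      obtain ⟨⟨h1, h2⟩, h3⟩ := h
      have h8 : i = j := by
        rcases hpri _ _ _ _ h2 with ⟨h4, h5⟩ | ⟨h4, h5⟩
        · rw [← h4, ← h5]
        · rw [← h4, ← h5]
      rw [h8] at h3
      simp at h3
    have hsub : I1 ∪ I2 ⊆ Q ×ˢ (univ : Finset Bool) := by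
      intro p hp
      rw [Finset.mem_product]
      refine ⟨?_, mem_univ _⟩
      rw [Finset.mem_union] at hp
      rcases hp with hp | hp
      · rw [hI1, Finset.mem_image] at hp
        obtain ⟨⟨i, l, j⟩, ht, rfl⟩ := hp
        rw [hT1, Finset.mem_filter] at ht
        rw [hQ, Finset.mem_filter]
        refine ⟨mem_univ _, ?_⟩
        simp only
        rw [hprv]
        exact ht.2
      · rw [hI2, Finset.mem_image] at hp
        obtain ⟨⟨l, i⟩, ht, rfl⟩ := hp
        rw [hT2, Finset.mem_filter] at ht
        rw [hQ, Finset.mem_filter]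
        refine ⟨mem_univ _, ?_⟩
        simp only
        rw [hprv]
        exact ht.2
    have h9 := Finset.card_le_card hsub
    rw [Finset.card_union_of_disjoint hdis, hI1c, hI2c, Finset.card_product] at h9
    simp only [card_univ, Fintype.card_bool] at h9
    have h10 : n * (2 * n) = 2 * (n * n) := by ring
    rw [h10] at hT1c
    omega

end

end Run7.h713.MD
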